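import Pool.Agent.U670.SG.Grow

/-!
# Doubles of free groups along cyclic subgroups
-/

set_option autoImplicit false

namespace Pool.Agent.U670.SG

open Pool.Agent.Helper180.FreeMetric Pool.Agent.Helper180.BigPowers Filter

/-- a group generated by two copies of a free group and elements `t e`, with the relations
`z e * t e = t e * z e` (the first `z e` in the first copy, the second in the second copy) and with
the retractions `f n` to the free group -/
structure Dbl (I E G : Type) [Group G] where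
  z : E → FreeGroup I
  e0 : E
  j0 : FreeGroup I →* G
  j1 : FreeGroup I →* G
  t : E → G
  t0 : t e0 = 1
  rel : ∀ e, j0 (z e) * t e = t e * j1 (z e)
  f : ℕ → G →* FreeGroup I
  f0 : ∀ n u, f n (j0 u) = u
  f1 : ∀ n u, f n (j1 u) = z e0 ^ (n : ℤ) * u * (z e0 ^ (n : ℤ))⁻¹
  ft : ∀ n e, f n (t e) = z e ^ (n : ℤ) * (z e0 ^ (n : ℤ))⁻¹
  gen : Subgroup.closure (Set.range j0 ∪ Set.range j1 ∪ Set.range t) = ⊤
  zne : ∀ e, z e ≠ 1
  nc : ∀ e e' u, Commute (z e) (u * z e' * u⁻¹) → e = e' ∧ u ∈ Subgroup.zpowers (z e)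

section

variable {I E G : Type} [Group G] (D : Dbl I E G)

/-- a block: the element `t e * j1 v * (t e')⁻¹ * j0 u` -/
structure Bl (I E : Type) where
  e : E
  v : FreeGroup I
  e' : E
  u : FreeGroup I

/-- the value of a block -/
def bv (b : Bl I E) : G := D.t b.e * D.j1 b.v * (D.t b.e')⁻¹ * D.j0 b.u

/-- the value of a list of blocks -/
def pv (L : List (Bl I E)) : G := (L.map (bv D)).prod

theorem pv_nil : pv D [] = 1 := rfl

theorem pv_cons (b : Bl I E) (L : List (Bl I E)) : pv D (b :: L) = bv D b * pv D L := by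
  simp [pv]

theorem pv_append (L L' : List (Bl I E)) : pv D (L ++ L') = pv D L * pv D L' := by
  simp [pv]

theorem exists_pv (x : G) : ∃ L, x = pv D L := by
  have hx : x ∈ Subgroup.closure (Set.range D.j0 ∪ Set.range D.j1 ∪ Set.range D.t) := by
    rw [D.gen]
    trivial
  induction hx using Subgroup.closure_induction with
  | mem x hx =>
    rcases hx with (⟨u, rfl⟩ | ⟨v, rfl⟩) | ⟨e, rfl⟩
    · exact ⟨[⟨D.e0, 1, D.e0, u⟩], by simp [pv, bv]⟩
    · exact ⟨[⟨D.e0, v, D.e0, 1⟩], by simp [pv, bv, D.t0]⟩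
    · exact ⟨[⟨e, 1, D.e0, 1⟩], by simp [pv, bv, D.t0]⟩
  | one => exact ⟨[], rfl⟩
  | mul x y _ _ hx hy =>
    obtain ⟨L, rfl⟩ := hx
    obtain ⟨L', rfl⟩ := hy
    exact ⟨L ++ L', (pv_append D _ _).symm⟩
  | inv x hx' hx =>
    obtain ⟨L, rfl⟩ := hx
    clear hx'
    induction L with
    | nil => exact ⟨[], by simp [pv]⟩
    | cons b T ih =>
      obtain ⟨L', hL'⟩ := ih
      refine ⟨L' ++ [⟨D.e0, 1, D.e0, b.u⁻¹⟩, ⟨b.e', b.v⁻¹, b.e, 1⟩], ?_⟩
      rw [pv_append, ← hL', pv_cons, mul_inv_rev]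
      congr 1
      simp only [pv, bv, List.map_cons, List.map_nil, List.prod_cons, List.prod_nil, map_one,
        map_inv, D.t0]
      group

/-- the relation for powers -/
theorem rel_zpow (e : E) (j : ℤ) : D.t e * D.j1 (D.z e ^ j) * (D.t e)⁻¹ = D.j0 (D.z e ^ j) := by
  rw [map_zpow, map_zpow, ← conj_zpow]
  congr 1
  rw [mul_inv_eq_iff_eq_mul, D.rel]

/-- noncommuting condition -/
def NC (e : E) (v : FreeGroup I) (e' : E) : Prop := ¬ Commute (D.z e) (v * D.z e' * v⁻¹)

theorem of_not_nc {e e' : E} {v : FreeGroup I} (h : ¬ NC D e v e') :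
    e = e' ∧ ∃ j : ℤ, v = D.z e ^ j := by
  unfold NC at h
  rw [not_not] at h
  obtain ⟨h1, j, hj⟩ := D.nc e e' v h
  exact ⟨h1, j, hj.symm⟩

/-- the element is elliptic -/
def Ell (y : G) : Prop :=
  (∃ (h : G) (u : FreeGroup I), y = h * D.j0 u * h⁻¹) ∨
    ∃ (h : G) (u : FreeGroup I), y = h * D.j1 u * h⁻¹

theorem Ell.conj {y : G} (h : Ell D y) (k : G) : Ell D (k * y * k⁻¹) := by
  rcases h with ⟨h, u, rfl⟩ | ⟨h, u, rfl⟩
  · exact Or.inl ⟨k * h, u, by group⟩
  · exact Or.inr ⟨k * h, u, by group⟩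

theorem Ell.conj' {y : G} (k : G) (h : Ell D (k * y * k⁻¹)) : Ell D y := by
  have h1 := Ell.conj D h k⁻¹
  have h2 : k⁻¹ * (k * y * k⁻¹) * k⁻¹⁻¹ = y := by group
  rwa [h2] at h1

/-- the class of `y` has a representative by a list of length `m` -/
def Rp (y : G) (m : ℕ) : Prop := ∃ (h : G) (L : List (Bl I E)), L.length = m ∧
  y = h * pv D L * h⁻¹

theorem Rp.of_conj {y x : G} (k : G) (hy : y = k * x * k⁻¹) {m : ℕ} (h : Rp D x m) : Rp D y m := by
  obtain ⟨h, L, h1, h2⟩ := h
  refine ⟨k * h, L, h1, ?_⟩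
  rw [hy, h2]
  group

/-- absorbing an element of the first vertex group -/
theorem absorb (L : List (Bl I E)) (hL : L ≠ []) (w : FreeGroup I) :
    Rp D (pv D L * D.j0 w) L.length := by
  obtain ⟨M, b, rfl⟩ : ∃ M b, L = M ++ [b] := by
    rcases List.eq_nil_or_concat' L with h | ⟨M, b, h⟩
    · exact absurd h hL
    · exact ⟨M, b, h⟩
  refine ⟨1, M ++ [⟨b.e, b.v, b.e', b.u * w⟩], by simp, ?_⟩
  rw [pv_append, pv_append, pv_cons, pv_cons, pv_nil, mul_one, mul_one, one_mul, inv_one, mul_one,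
    mul_assoc]
  congr 1
  simp only [bv, map_mul]
  group

theorem block_red {y h : G} {L1 L2 : List (Bl I E)} {b : Bl I E}
    (hy : y = h * pv D (L1 ++ b :: L2) * h⁻¹) (hb : ¬ NC D b.e b.v b.e') :
    Ell D y ∨ Rp D y (L1.length + L2.length) := by
  obtain ⟨he, j, hj⟩ := of_not_nc D hb
  have h1 : bv D b = D.j0 (D.z b.e ^ j * b.u) := by
    unfold bv
    rw [← he, hj, rel_zpow, map_mul]
  by_cases hnil : L2 ++ L1 = []
  · left
    obtain ⟨h2, h3⟩ := List.append_eq_nil_iff.1 hnil
    refine Or.inl ⟨h, D.z b.e ^ j * b.u, ?_⟩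
    rw [hy, h2, h3, List.nil_append, pv_cons, pv_nil, mul_one, h1]
  · right
    have h2 := absorb D _ hnil (D.z b.e ^ j * b.u)
    rw [List.length_append, add_comm] at h2
    refine Rp.of_conj D (h * pv D L1 * D.j0 (D.z b.e ^ j * b.u)) ?_ h2
    rw [hy, pv_append, pv_append, pv_cons, h1]
    group

theorem pair_red {y h : G} {L1 L2 : List (Bl I E)} {b b' : Bl I E}
    (hy : y = h * pv D (L1 ++ b :: b' :: L2) * h⁻¹) (hb : ¬ NC D b.e' b.u b'.e) :
    Rp D y (L1.length + L2.length + 1) := by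
  obtain ⟨he, j, hj⟩ := of_not_nc D hb
  refine ⟨h, L1 ++ ⟨b.e, b.v * D.z b.e' ^ j * b'.v, b'.e', b'.u⟩ :: L2, ?_, ?_⟩
  · rw [List.length_append, List.length_cons]
    omega
  · rw [hy]
    congr 2
    rw [pv_append, pv_append, pv_cons, pv_cons, pv_cons]
    congr 1
    rw [← mul_assoc]
    congr 1
    have h1 := rel_zpow D b.e' j
    simp only [bv, map_mul]
    rw [← he, hj, ← h1]
    group

/-- every element is elliptic or has a cyclically reduced representative -/
theorem trich (y : G) : Ell D y ∨ ∃ (h : G) (L : List (Bl I E)), y = h * pv D L * h⁻¹ ∧ L ≠ [] ∧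
    (∀ b ∈ L, NC D b.e b.v b.e') ∧ (L ++ L).IsChain (fun b b' => NC D b.e' b.u b'.e) := by
  classical
  by_cases hE : Ell D y
  · exact Or.inl hE
  right
  have hP : ∃ m, Rp D y m := by
    obtain ⟨L, hL⟩ := exists_pv D y
    exact ⟨L.length, 1, L, rfl, by simp [hL]⟩
  obtain ⟨h, L, hn, hy⟩ := Nat.find_spec hP
  have hmin : ∀ m, m < L.length → ¬ Rp D y m := by
    intro m hm
    rw [hn] at hm
    exact Nat.find_min hP hm
  have hne : L ≠ [] := by
    rintro rfl
    apply hE
    refine Or.inl ⟨h, 1, ?_⟩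
    rw [hy, pv_nil, map_one]
  have hpair : ∀ (L1 L2 : List (Bl I E)) (b b' : Bl I E), L = L1 ++ b :: b' :: L2 →
      NC D b.e' b.u b'.e := by
    intro L1 L2 b b' hL
    by_contra hcon
    have h1 := pair_red D (hL ▸ hy) hcon
    refine hmin _ ?_ h1
    rw [hL, List.length_append, List.length_cons, List.length_cons]
    omega
  refine ⟨h, L, hy, hne, ?_, ?_⟩
  · intro b hb
    by_contra hcon
    obtain ⟨L1, L2, hL⟩ := List.append_of_mem hb
    rcases block_red D (hL ▸ hy) hcon with h1 | h1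
    · exact hE h1
    · refine hmin _ ?_ h1
      rw [hL, List.length_append, List.length_cons]
      omega
  · have hch : L.IsChain (fun b b' => NC D b.e' b.u b'.e) := by
      rw [List.isChain_iff_forall_rel_of_append_cons_cons]
      intro a b L1 L2 hL
      exact hpair L1 L2 a b hL
    rw [List.isChain_append]
    refine ⟨hch, hch, ?_⟩
    intro b hb b' hb'
    by_contra hcon
    obtain ⟨T, hT⟩ : ∃ T, L = b' :: T := by
      cases L with
      | nil => exact absurd rfl hne
      | cons c T =>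
        refine ⟨T, ?_⟩
        have : c = b' := by simpa using hb'
        rw [this]
    by_cases hTn : T = []
    · subst hTn
      rw [hT] at hb
      have hbb : b' = b := by simpa using hb
      subst hbb
      obtain ⟨he, j, hj⟩ := of_not_nc D hcon
      apply hE
      rw [hy, hT, pv_cons, pv_nil, mul_one]
      apply Ell.conj
      refine Or.inr ⟨D.t b'.e, b'.v * D.z b'.e' ^ j, ?_⟩
      have h1 := rel_zpow D b'.e' j
      unfold bv
      rw [hj, ← h1, map_mul, he]
      group
    · obtain ⟨M, c, hM⟩ : ∃ M c, T = M ++ [c] := by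
        rcases List.eq_nil_or_concat' T with h | ⟨M, b, h⟩
        · exact absurd h hTn
        · exact ⟨M, b, h⟩
      have hc : c = b := by
        rw [hT, hM, ← List.cons_append] at hb
        rw [List.getLast?_append] at hb
        simpa using hb
      subst hc
      have h1 : pv D L = pv D (b' :: M) * bv D c := by
        rw [hT, hM, ← List.cons_append, pv_append]
        simp [pv]
      have h2 : y = h * (bv D c)⁻¹ * pv D ([] ++ c :: b' :: M) * (h * (bv D c)⁻¹)⁻¹ := by
        rw [hy, h1, List.nil_append, pv_cons D c]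
        group
      have h3 := pair_red D h2 hcon
      refine hmin _ ?_ h3
      rw [hT, hM, List.length_cons, List.length_append]
      simp

variable [DecidableEq I]

/-- the syllables -/
def sy (L : List (Bl I E)) : List (FreeGroup I × ℤ × FreeGroup I) :=
  L.flatMap fun b => [(D.z b.e, 1, b.v), (D.z b.e', -1, b.u)]

theorem sy_cons (b : Bl I E) (L : List (Bl I E)) :
    sy D (b :: L) = (D.z b.e, 1, b.v) :: (D.z b.e', -1, b.u) :: sy D L := by
  simp [sy]

theorem sy_append (L L' : List (Bl I E)) : sy D (L ++ L') = sy D L ++ sy D L' := by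
  simp [sy]

theorem red_sy (L : List (Bl I E)) (h1 : ∀ b ∈ L, NC D b.e b.v b.e')
    (h2 : L.IsChain (fun b b' => NC D b.e' b.u b'.e)) : Red (sy D L) := by
  induction L with
  | nil => exact trivial
  | cons b T ih =>
    have ih' := ih (fun c hc => h1 c (List.mem_cons_of_mem _ hc)) (List.isChain_cons.1 h2).2
    have hb := h1 b List.mem_cons_self
    rw [sy_cons]
    refine ⟨D.zne _, one_ne_zero, hb, ?_⟩
    cases T with
    | nil => exact ⟨D.zne _, by norm_num⟩
    | cons b' T =>
      rw [sy_cons] at ih' ⊢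
      refine ⟨D.zne _, by norm_num, ?_, ih'⟩
      exact (List.isChain_cons_cons.1 h2).1

theorem f_pv (n : ℕ) (L : List (Bl I E)) : D.f n (pv D L) = val n (sy D L) := by
  induction L with
  | nil => simp [pv, sy, val]
  | cons b T ih =>
    rw [pv_cons, map_mul, ih, sy_cons]
    have e : val n ((D.z b.e, 1, b.v) :: (D.z b.e', -1, b.u) :: sy D T) =
        D.z b.e ^ ((n : ℤ) * 1) * b.v * (D.z b.e' ^ ((n : ℤ) * -1) * b.u * val n (sy D T)) := rfl
    rw [e]
    simp only [bv, map_mul, map_inv, D.ft, D.f1, D.f0]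
    rw [mul_one, mul_neg_one, zpow_neg]
    group

/-- an element whose images in the free group are conjugate is elliptic -/
theorem ell_of [Finite I] {y : G} (u0 : FreeGroup I)
    (h : ∀ n : ℕ, ∃ k, D.f n y = k * u0 * k⁻¹) : Ell D y := by
  rcases trich D y with h1 | ⟨k, L, hy, hL, h1, h2⟩
  · exact h1
  exfalso
  refine not_conj (sy D L) ?_ ?_ u0 ?_
  · obtain ⟨b, T, rfl⟩ := List.exists_cons_of_ne_nil hL
    rw [sy_cons]
    exact List.cons_ne_nil _ _
  · rw [← sy_append]
    apply red_sy D _ _ h2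
    intro b hb
    rcases List.mem_append.1 hb with hb | hb <;> exact h1 b hb
  · intro n
    obtain ⟨w, hw⟩ := h n
    refine ⟨(D.f n k)⁻¹ * w, ?_⟩
    rw [← f_pv]
    rw [hy, map_mul, map_mul, map_inv] at hw
    have h3 : D.f n (pv D L) = (D.f n k)⁻¹ * (D.f n k * D.f n (pv D L) * (D.f n k)⁻¹) * D.f n k := by
      group
    rw [h3, hw]
    group

theorem f1_zero (u : FreeGroup I) : D.f 0 (D.j1 u) = u := by
  rw [D.f1]
  simp

/-- the intersection of the kernels is trivial -/
theorem res [Finite I] {y : G} (h : ∀ n : ℕ, D.f n y = 1) : y = 1 := by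
  have h0 := h 0
  rcases ell_of D (y := y) 1 (fun n => ⟨1, by simp [h n]⟩) with ⟨k, u, rfl⟩ | ⟨k, u, rfl⟩
  · rw [map_mul, map_mul, map_inv, D.f0] at h0
    have h1 : u = 1 := by
      have := conj_eq_one_iff.1 h0
      exact this
    rw [h1]
    simp
  · rw [map_mul, map_mul, map_inv, f1_zero] at h0
    have h1 : u = 1 := conj_eq_one_iff.1 h0
    rw [h1]
    simp

end

end Pool.Agent.U670.SG
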