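import Pool.Agent.Helper180.BigPowers

/-!
# Conjugacy classes and big powers in free groups
-/

set_option autoImplicit false

namespace Pool.Agent.U670.SG

open FreeGroup Pool.Agent.Helper180.FreeMetric Pool.Agent.Helper180.BigPowers Filter

variable {α : Type} [DecidableEq α]

theorem val_append (n : ℕ) (l l' : List (FreeGroup α × ℤ × FreeGroup α)) :
    val n (l ++ l') = val n l * val n l' := by
  induction l with
  | nil => simp [val]
  | cons a l ih =>
    obtain ⟨w, m, g⟩ := a
    rw [List.cons_append]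
    change w ^ ((n : ℤ) * m) * g * val n (l ++ l') = w ^ ((n : ℤ) * m) * g * val n l * val n l'
    rw [ih, ← mul_assoc]

theorem grow2 [Finite α] (L : List (FreeGroup α × ℤ × FreeGroup α)) (hL : L ≠ []) :
    ∀ l : List (FreeGroup α × ℤ × FreeGroup α), l ≠ [] → Red (l ++ L) →
      ∀ K : ℤ, ∀ᶠ n : ℕ in atTop, K + (val n L).norm < (val n (l ++ L)).norm
  | [], h, _ => absurd rfl h
  | (w, m, g) :: l, _, hred => by
    intro K
    rw [List.cons_append] at hred ⊢
    have ih : l = [] ∨ (Red (l ++ L) → ∀ K : ℤ, ∀ᶠ n : ℕ in atTop,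
        K + (val n L).norm < (val n (l ++ L)).norm) := by
      by_cases h : l = []
      · exact Or.inl h
      · exact Or.inr fun h1 => grow2 L hL l h h1
    obtain ⟨⟨w', m', g'⟩, T, hT⟩ : ∃ a T, l ++ L = a :: T := by
      apply List.exists_cons_of_ne_nil
      intro h0
      exact hL (List.append_eq_nil_iff.1 h0).2
    rw [hT] at hred ih ⊢
    obtain ⟨hw, hm, hc, hred'⟩ := hred
    obtain ⟨B, hB⟩ := (big_powers_aux T w' m' g' hred').2 w m g hc
    have key : ∀ n : ℕ, ((val n ((w, m, g) :: (w', m', g') :: T)).norm : ℤ) =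
        (w ^ ((n : ℤ) * m) * g).norm + (val n ((w', m', g') :: T)).norm -
        gp (w ^ ((n : ℤ) * m) * g)⁻¹ (val n ((w', m', g') :: T)) := by
      intro n
      have e : val n ((w, m, g) :: (w', m', g') :: T) =
        w ^ ((n : ℤ) * m) * g * val n ((w', m', g') :: T) := rfl
      rw [e]
      unfold gp
      rw [inv_inv, norm_inv_eq]
      omega
    rcases ih with ih | ih
    · subst ih
      rw [List.nil_append] at hT
      rw [hT]
      filter_upwards [hB, grow_syll hw hm g (K + B)] with n h1 h2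
      rw [key n]
      omega
    · filter_upwards [hB, grow_syll hw hm g (K + B), ih hred' 0] with n h1 h2 h3
      rw [key n]
      omega

theorem norm_sq_conj (h u : FreeGroup α) :
    ((h * u * h⁻¹ * (h * u * h⁻¹)).norm : ℤ) ≤ (h * u * h⁻¹).norm + u.norm := by
  have h1 := gp_hyp (u⁻¹ * h⁻¹) h⁻¹ (u * h⁻¹)
  unfold gp at h1
  have e1 : (u⁻¹ * h⁻¹)⁻¹ * h⁻¹ = h * u * h⁻¹ := by group
  have e2 : (h⁻¹)⁻¹ * (u * h⁻¹) = h * u * h⁻¹ := by group
  have e3 : (u⁻¹ * h⁻¹)⁻¹ * (u * h⁻¹) = h * u * h⁻¹ * (h * u * h⁻¹) := by group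
  rw [e1, e2, e3] at h1
  have h2 := norm_mul_le u h⁻¹
  have h3 := norm_mul_le u⁻¹ h⁻¹
  have h4 := norm_inv_eq (x := u)
  rw [h4] at h3
  rcases le_total (((u⁻¹ * h⁻¹).norm : ℤ) + (h⁻¹).norm - (h * u * h⁻¹).norm)
    (((h⁻¹).norm : ℤ) + (u * h⁻¹).norm - (h * u * h⁻¹).norm) with h5 | h5
  · rw [min_eq_left h5] at h1
    omega
  · rw [min_eq_right h5] at h1
    omega

theorem not_conj [Finite α] (l : List (FreeGroup α × ℤ × FreeGroup α)) (hl : l ≠ [])
    (hred : Red (l ++ l)) (u0 : FreeGroup α) (h : ∀ n : ℕ, ∃ h, val n l = h * u0 * h⁻¹) : False := by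
  obtain ⟨n, hn⟩ := (grow2 l hl l hl hred u0.norm).exists
  obtain ⟨k, hk⟩ := h n
  rw [val_append, hk] at hn
  have := norm_sq_conj k u0
  omega

/-- the elements commuting with an element which is not a proper power -/
theorem cz {z : FreeGroup α} (h1 : z ≠ 1) (hz : ∀ (g : FreeGroup α) (n : ℤ), z = g ^ n → n = 1 ∨ n = -1)
    {u : FreeGroup α} (hu : Commute u z) : u ∈ Subgroup.zpowers z := by
  obtain ⟨g, hg, hg2⟩ := centralizer_cyclic z h1
  obtain ⟨n, hn⟩ := hg2 z rfl
  obtain ⟨m, hm⟩ := hg2 u hu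
  rcases hz g n hn with rfl | rfl
  · rw [zpow_one] at hn
    rw [hm, ← hn]
    exact ⟨m, rfl⟩
  · rw [zpow_neg, zpow_one] at hn
    have h2 : g = z⁻¹ := by rw [hn, inv_inv]
    rw [hm, h2]
    exact ⟨-m, by simp⟩

theorem zpow_eq_one {w : FreeGroup α} (hw : w ≠ 1) {n : ℤ} (h : w ^ n = 1) : n = 0 := by
  apply zpow_inj_of_ne_one hw
  simpa using h

/-- the case of one edge -/
theorem nc_same {z : FreeGroup α} (h1 : z ≠ 1)
    (hc : ∀ u : FreeGroup α, Commute u z → u ∈ Subgroup.zpowers z)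
    {u : FreeGroup α} (hu : Commute z (u * z * u⁻¹)) : u ∈ Subgroup.zpowers z := by
  obtain ⟨k, hk⟩ := hc _ hu.symm
  have hk' : z ^ k = u * z * u⁻¹ := hk
  -- the other direction
  have h2 : Commute (u⁻¹ * z * u) z := by
    have h3 : u⁻¹ * (z * (u * z * u⁻¹)) * u = u⁻¹ * (u * z * u⁻¹ * z) * u := by rw [hu.eq]
    have h4 : u⁻¹ * z * u * z = z * (u⁻¹ * z * u) := by
      calc u⁻¹ * z * u * z = u⁻¹ * (z * (u * z * u⁻¹)) * u := by group
        _ = u⁻¹ * (u * z * u⁻¹ * z) * u := h3
        _ = z * (u⁻¹ * z * u) := by group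
    exact h4
  obtain ⟨j, hj⟩ := hc _ h2
  have hj' : z ^ j = u⁻¹ * z * u := hj
  have h5 : z ^ (k * j) = z := by
    rw [zpow_mul, hk', conj_zpow, hj']
    group
  have h6 : k * j = 1 := by
    have h7 : z ^ (k * j - 1) = 1 := by rw [zpow_sub_one, h5, mul_inv_cancel]
    have := zpow_eq_one h1 h7
    omega
  rcases Int.isUnit_iff.1 (IsUnit.of_mul_eq_one _ h6) with rfl | rfl
  · apply hc
    rw [zpow_one] at hk'
    have h8 : z * u = u * z := by
      conv_lhs => rw [hk']
      group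
    exact h8.symm
  · exfalso
    rw [zpow_neg, zpow_one] at hk'
    -- u² commutes with z
    have h8 : Commute (u * u) z := by
      have h9 : u * u * z * (u * u)⁻¹ = z := by
        calc u * u * z * (u * u)⁻¹ = u * (u * z * u⁻¹) * u⁻¹ := by group
          _ = u * z⁻¹ * u⁻¹ := by rw [← hk']
          _ = (u * z * u⁻¹)⁻¹ := by group
          _ = z := by rw [← hk', inv_inv]
      exact mul_inv_eq_iff_eq_mul.1 h9
    by_cases hu1 : u = 1
    · rw [hu1] at hk'
      have h9 : z ^ (2 : ℤ) = 1 := by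
        rw [zpow_two]
        have : z⁻¹ = z := by simpa using hk'
        calc z * z = z⁻¹ * z := by rw [this]
          _ = 1 := inv_mul_cancel z
      have := zpow_eq_one h1 h9
      omega
    · have h10 : u * u ≠ 1 := by
        intro h11
        have h12 : u ^ (2 : ℤ) = 1 := by rw [zpow_two, h11]
        have := zpow_eq_one hu1 h12
        omega
      have h11 : u * z = z * u := comm_trans h10 (by group) h8.symm.eq
      have h12 : z⁻¹ = z := by
        rw [hk', h11]
        group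
      have h9 : z ^ (2 : ℤ) = 1 := by
        rw [zpow_two]
        calc z * z = z⁻¹ * z := by rw [h12]
          _ = 1 := inv_mul_cancel z
      have := zpow_eq_one h1 h9
      omega

end Pool.Agent.U670.SG
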