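import Pool.Agent.U670.SG.Dbl
import Pool.Agent.U670.CV.Fr

/-!
# Automorphisms of doubles which fix the polynomial class functions are inner
-/

set_option autoImplicit false

namespace Pool.Agent.U670.SG

open Pool.Agent.U670.CV

theorem pull_mem {G G' : Type} [Group G] [Group G'] {c : ℕ} (φ : G →* G') {h : G' → ℤ}
    (hh : h ∈ Pol G' ℤ c) : (fun x => h (φ x)) ∈ Pol G ℤ c := by
  induction c generalizing h with
  | zero =>
    rw [mem_zero] at hh ⊢
    rw [hh]; rfl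
  | succ c ih =>
    intro g
    have h1 := ih (hh (φ g))
    convert h1 using 1
    funext x
    simp [Dl]

theorem pull_CF {G G' : Type} [Group G] [Group G'] {c : ℕ} (φ : G →* G') {h : G' → ℤ}
    (hh : h ∈ CF G' c) : (fun x => h (φ x)) ∈ CF G c := by
  refine ⟨pull_mem φ hh.1, fun x y => ?_⟩
  change h (φ (x * y)) = h (φ (y * x))
  rw [map_mul, map_mul]
  exact hh.2 _ _

/-- the automorphism fixes the polynomial class functions -/
def TvG {G : Type} [Group G] (φ : MulAut G) : Prop :=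
  ∀ c, ∀ h ∈ CF G c, ∀ x, h (φ x) = h x

theorem TvG.conj {G : Type} [Group G] {φ : MulAut G} (hφ : TvG φ) (g : G) :
    TvG (MulAut.conj g * φ) := by
  intro c h hh x
  rw [MulAut.mul_apply, MulAut.conj_apply, class_conj hh, hφ c h hh]

theorem TvG.inv {G : Type} [Group G] {φ : MulAut G} (hφ : TvG φ) : TvG φ⁻¹ := by
  intro c h hh x
  have h1 := hφ c h hh (φ⁻¹ x)
  have h2 : φ ((φ⁻¹ : MulAut G) x) = x := by
    rw [← MulAut.mul_apply, mul_inv_cancel, MulAut.one_apply]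
  rw [h2] at h1
  exact h1.symm

section

variable {I E G : Type} [Group G] [DecidableEq I] (D : Dbl I E G)

theorem ker_of {φ : MulAut G} (hφ : TvG φ) (n : ℕ) {y : G} (hy : D.f n y = 1) :
    D.f n (φ y) = 1 := by
  by_contra hne
  obtain ⟨c, k, hk, hk1⟩ := sep_one _ hne
  apply hk1
  have h1 := hφ c _ (pull_CF (D.f n) hk) y
  rw [h1, hy]

theorem fac {φ : MulAut G} (hφ : TvG φ) (n : ℕ) (x : G) :
    D.f n (φ x) = D.f n (φ (D.j0 (D.f n x))) := by
  have h1 : D.f n (x * (D.j0 (D.f n x))⁻¹) = 1 := by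
    rw [map_mul, map_inv, D.f0, mul_inv_cancel]
  have h2 := ker_of D hφ n h1
  rw [map_mul, map_inv, map_mul, map_inv] at h2
  exact mul_inv_eq_one.1 h2

/-- the automorphism acts on the free quotients as inner automorphisms -/
theorem inner_quot {a b : I} (hab : a ≠ b) {φ : MulAut G} (hφ : TvG φ) (n : ℕ) :
    ∃ c, ∀ x, D.f n (φ x) = c * D.f n x * c⁻¹ := by
  let ψ : MulAut (FreeGroup I) :=
    { toFun := fun u => D.f n (φ (D.j0 u))
      invFun := fun u => D.f n (φ⁻¹ (D.j0 u))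
      left_inv := by
        intro u
        change D.f n (φ⁻¹ (D.j0 (D.f n (φ (D.j0 u))))) = u
        rw [← fac D hφ.inv n (φ (D.j0 u))]
        have h2 : (φ⁻¹ : MulAut G) (φ (D.j0 u)) = D.j0 u := by
          rw [← MulAut.mul_apply, inv_mul_cancel, MulAut.one_apply]
        rw [h2, D.f0]
      right_inv := by
        intro u
        change D.f n (φ (D.j0 (D.f n (φ⁻¹ (D.j0 u))))) = u
        rw [← fac D hφ n (φ⁻¹ (D.j0 u))]
        have h2 : φ ((φ⁻¹ : MulAut G) (D.j0 u)) = D.j0 u := by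
          rw [← MulAut.mul_apply, mul_inv_cancel, MulAut.one_apply]
        rw [h2, D.f0]
      map_mul' := fun u v => by rw [map_mul, map_mul, map_mul] }
  have hT : Tv ψ := by
    intro c k hk u
    change k (D.f n (φ (D.j0 u))) = k u
    rw [hφ c _ (pull_CF (D.f n) hk) (D.j0 u), D.f0]
  obtain ⟨c, hc⟩ := tv_inner hab hT
  refine ⟨c, fun x => ?_⟩
  rw [fac D hφ n x]
  have h1 := DFunLike.congr_fun hc (D.f n x)
  exact h1

theorem ex_conj (p : I) (k u : FreeGroup I) : ex p (k * u * k⁻¹) = ex p u := by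
  rw [map_mul, map_mul, map_inv, mul_inv_eq_iff_eq_mul, mul_comm]

theorem cz_gen (p : I) {u : FreeGroup I} (hu : Commute u (FreeGroup.of p)) :
    ∃ m : ℤ, u = FreeGroup.of p ^ m := by
  have h1 : u ∈ Subgroup.zpowers (FreeGroup.of p) := by
    apply cz (FreeGroup.of_ne_one p) _ hu
    intro g n hg
    have h2 := congrArg (fun x => Multiplicative.toAdd (ex p x)) hg
    simp only [map_zpow, toAdd_zpow, smul_eq_mul] at h2
    have h3 : Multiplicative.toAdd (ex p (FreeGroup.of p)) = 1 := by simp [ex]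
    rw [h3] at h2
    exact Int.isUnit_iff.1 (IsUnit.of_mul_eq_one _ h2.symm)
  obtain ⟨m, hm⟩ := h1
  exact ⟨m, hm.symm⟩

theorem chi_conj {G : Type} [Group G] (χ : G →* Multiplicative ℤ) (k u : G) :
    χ (k * u * k⁻¹) = χ u := by
  rw [map_mul, map_mul, map_inv, mul_inv_eq_iff_eq_mul, mul_comm]

/-- the image of a generator -/
theorem gen_conj [Finite I] {a b : I} (hab : a ≠ b) {φ : MulAut G} (hφ : TvG φ) (p : I)
    (χ : G →* Multiplicative ℤ)
    (hχ : χ (D.j0 (FreeGroup.of p)) ≠ χ (D.j1 (FreeGroup.of p))) :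
    ∃ h, φ (D.j0 (FreeGroup.of p)) = h * D.j0 (FreeGroup.of p) * h⁻¹ := by
  have h1 : ∀ n : ℕ, ∃ k, D.f n (φ (D.j0 (FreeGroup.of p))) = k * FreeGroup.of p * k⁻¹ := by
    intro n
    obtain ⟨c, hc⟩ := inner_quot D hab hφ n
    exact ⟨c, by rw [hc, D.f0]⟩
  obtain ⟨k, hk⟩ := h1 0
  rcases ell_of D _ h1 with ⟨h, u, hy⟩ | ⟨h, u, hy⟩
  · rw [hy, map_mul, map_mul, map_inv, D.f0] at hk
    have h2 : u = ((D.f 0 h)⁻¹ * k) * FreeGroup.of p * ((D.f 0 h)⁻¹ * k)⁻¹ := by
      have h3 : u = (D.f 0 h)⁻¹ * (D.f 0 h * u * (D.f 0 h)⁻¹) * D.f 0 h := by group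
      rw [h3, hk]
      group
    refine ⟨h * D.j0 ((D.f 0 h)⁻¹ * k), ?_⟩
    rw [hy]
    conv_lhs => rw [h2]
    rw [map_mul, map_mul, map_inv]
    group
  · exfalso
    rw [hy, map_mul, map_mul, map_inv, f1_zero] at hk
    have h2 : u = ((D.f 0 h)⁻¹ * k) * FreeGroup.of p * ((D.f 0 h)⁻¹ * k)⁻¹ := by
      have h3 : u = (D.f 0 h)⁻¹ * (D.f 0 h * u * (D.f 0 h)⁻¹) * D.f 0 h := by group
      rw [h3, hk]
      group
    apply hχ
    have h4 := hφ 2 _ (hom_mem χ) (D.j0 (FreeGroup.of p))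
    have h5 : χ (φ (D.j0 (FreeGroup.of p))) = χ (D.j0 (FreeGroup.of p)) :=
      Multiplicative.toAdd.injective h4
    rw [← h5, hy, h2, chi_conj, map_mul D.j1, map_mul D.j1 _ (FreeGroup.of p), map_inv D.j1,
      chi_conj]

/-- automorphisms which fix the polynomial class functions are inner -/
theorem inner_of [Finite I] {p q : I} (hpq : p ≠ q) (χ χ' : G →* Multiplicative ℤ)
    (hχ : χ (D.j0 (FreeGroup.of p)) ≠ χ (D.j1 (FreeGroup.of p)))
    (hχ' : χ' (D.j0 (FreeGroup.of q)) ≠ χ' (D.j1 (FreeGroup.of q)))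
    (hex : ∀ n x, ex p (D.f n x) = ex p (D.f 0 x)) {φ : MulAut G} (hφ : TvG φ) :
    ∃ g, φ = MulAut.conj g := by
  obtain ⟨h1, hh1⟩ := gen_conj D hpq hφ p χ hχ
  have hφ1 := hφ.conj h1⁻¹
  have ha1 : (MulAut.conj h1⁻¹ * φ) (D.j0 (FreeGroup.of p)) = D.j0 (FreeGroup.of p) := by
    rw [MulAut.mul_apply, MulAut.conj_apply, hh1]
    group
  generalize hψ : MulAut.conj h1⁻¹ * φ = ψ at hφ1 ha1
  obtain ⟨h, hh⟩ := gen_conj D hpq hφ1 q χ' hχ'
  have key : ∀ n : ℕ, ∀ x, D.f n (ψ x) = FreeGroup.of p ^ (Multiplicative.toAdd (ex p (D.f 0 h))) *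
      D.f n x * (FreeGroup.of p ^ (Multiplicative.toAdd (ex p (D.f 0 h))))⁻¹ := by
    intro n
    obtain ⟨c, hc⟩ := inner_quot D hpq hφ1 n
    have h2 : Commute c (FreeGroup.of p) := by
      have h3 := hc (D.j0 (FreeGroup.of p))
      rw [ha1, D.f0] at h3
      exact (eq_mul_inv_iff_mul_eq.1 h3).symm
    obtain ⟨ν, rfl⟩ := cz_gen p h2
    have h4 : Commute ((FreeGroup.of p ^ ν)⁻¹ * D.f n h) (FreeGroup.of q) := by
      have h3 := hc (D.j0 (FreeGroup.of q))
      rw [hh, map_mul, map_mul, map_inv, D.f0] at h3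
      have h5 : (FreeGroup.of p ^ ν)⁻¹ * D.f n h * FreeGroup.of q =
          (FreeGroup.of p ^ ν)⁻¹ * (D.f n h * FreeGroup.of q * (D.f n h)⁻¹) * D.f n h := by group
      have h6 : (FreeGroup.of p ^ ν)⁻¹ * D.f n h * FreeGroup.of q =
          FreeGroup.of q * ((FreeGroup.of p ^ ν)⁻¹ * D.f n h) := by
        rw [h5, h3]
        group
      exact h6
    obtain ⟨μ, hμ⟩ := cz_gen q h4
    have h7 : D.f n h = FreeGroup.of p ^ ν * FreeGroup.of q ^ μ := by
      rw [← hμ, mul_inv_cancel_left]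
    have h8 : Multiplicative.toAdd (ex p (D.f 0 h)) = ν := by
      rw [← hex n h, h7, map_mul, map_zpow, map_zpow]
      have h9 : ex p (FreeGroup.of q) = 1 := by
        simp [ex, hpq.symm]
      have h10 : Multiplicative.toAdd (ex p (FreeGroup.of p)) = 1 := by simp [ex]
      rw [h9, one_zpow, mul_one, toAdd_zpow, h10, smul_eq_mul, mul_one]
    rw [h8]
    exact hc
  have hψ1 : ψ = MulAut.conj (D.j0 (FreeGroup.of p ^ (Multiplicative.toAdd (ex p (D.f 0 h))))) := by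
    ext x
    rw [MulAut.conj_apply]
    have h2 := res D (y := ψ x * (D.j0 (FreeGroup.of p ^ (Multiplicative.toAdd (ex p (D.f 0 h)))) *
      x * (D.j0 (FreeGroup.of p ^ (Multiplicative.toAdd (ex p (D.f 0 h)))))⁻¹)⁻¹) (by
        intro n
        rw [map_mul, map_inv, key n x, map_mul, map_mul, map_inv, D.f0, mul_inv_cancel])
    exact mul_inv_eq_one.1 h2
  refine ⟨h1 * D.j0 (FreeGroup.of p ^ (Multiplicative.toAdd (ex p (D.f 0 h)))), ?_⟩
  rw [map_mul, ← hψ1, ← hψ, ← mul_assoc, ← map_mul, mul_inv_cancel, map_one, one_mul]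

end

/-- the admissible pair -/
theorem adm_of {G : Type} [Group G] (h : ∀ φ : MulAut G, TvG φ → ∃ g, φ = MulAut.conj g) :
    Adm (Inn G) (ClassFn G) where
  comp := by
    intro φ h hh x y
    change h (φ (x * y)) = h (φ (y * x))
    rw [map_mul, map_mul]
    exact hh _ _
  triv := by
    rintro _ ⟨g, rfl⟩ h hh
    funext x
    have h1 := hh (g * x) g⁻¹
    rw [inv_mul_cancel_left] at h1
    exact h1
  pure := by
    intro m hm h hh x y
    have h1 : (m : ℤ) * h (x * y) = m * h (y * x) := hh x y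
    exact mul_left_cancel₀ (by exact_mod_cast hm.ne') h1
  homs := by
    intro f x y
    simp [add_comm]
  faith := by
    intro φ h1
    have hT : TvG φ := fun c k hk x => congrFun (h1 c k hk.1 hk.2) x
    obtain ⟨g, rfl⟩ := h φ hT
    exact ⟨g, rfl⟩

end Pool.Agent.U670.SG
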