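import Mathlib

/-!
# Products
-/

set_option autoImplicit false

namespace Pool.Agent.U670.SG

section

variable {M : Type} [Group M]

/-- the product `h 0 * ... * h (n - 1)` -/
def pr (h : ℕ → M) (n : ℕ) : M := ((List.range n).map h).prod

theorem pr_zero (h : ℕ → M) : pr h 0 = 1 := rfl

theorem pr_succ (h : ℕ → M) (n : ℕ) : pr h (n + 1) = pr h n * h n := by
  simp [pr, List.range_succ]

theorem pr_succ' (h : ℕ → M) (n : ℕ) : pr h (n + 1) = h 0 * pr (fun i => h (i + 1)) n := by
  induction n with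
  | zero => simp [pr]
  | succ n ih => rw [pr_succ, ih, pr_succ, mul_assoc]

theorem pr_add (h : ℕ → M) (m n : ℕ) : pr h (m + n) = pr h m * pr (fun i => h (m + i)) n := by
  induction n with
  | zero => simp [pr_zero]
  | succ n ih => rw [← add_assoc, pr_succ, ih, pr_succ, mul_assoc]

theorem pr_congr {h h' : ℕ → M} {n : ℕ} (H : ∀ i < n, h i = h' i) : pr h n = pr h' n := by
  unfold pr
  congr 1
  apply List.map_congr_left
  intro i hi
  exact H i (List.mem_range.1 hi)

theorem pr_one (n : ℕ) : pr (fun _ => (1 : M)) n = 1 := by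
  induction n with
  | zero => rfl
  | succ n ih => rw [pr_succ, ih, one_mul]

theorem pr_conj (c : M) (h : ℕ → M) (n : ℕ) : pr (fun i => c * h i * c⁻¹) n = c * pr h n * c⁻¹ := by
  induction n with
  | zero => simp [pr_zero]
  | succ n ih =>
    rw [pr_succ, pr_succ, ih]
    group

theorem pr_rev (h : ℕ → M) (k : ℕ) : pr (fun i => (h (k - 1 - i))⁻¹) k = (pr h k)⁻¹ := by
  induction k with
  | zero => simp [pr_zero]
  | succ k ih =>
    rw [pr_succ', pr_succ, mul_inv_rev, ← ih]
    congr 1
    apply pr_congr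
    intro i hi
    congr 2
    omega

theorem map_pr {M' : Type} [Group M'] (f : M →* M') (h : ℕ → M) (n : ℕ) :
    f (pr h n) = pr (fun i => f (h i)) n := by
  induction n with
  | zero => simp [pr_zero]
  | succ n ih => rw [pr_succ, pr_succ, map_mul, ih]

theorem ofFn_pr (h : ℕ → M) (n : ℕ) : (List.ofFn (fun i : Fin n => h i)).prod = pr h n := by
  induction n with
  | zero => simp [pr]
  | succ n ih =>
    rw [List.ofFn_succ', List.concat_eq_append, List.prod_append, pr_succ, ← ih]
    simp

end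

/-- the integral Heisenberg group -/
@[ext] structure Hs where
  a : ℤ
  b : ℤ
  z : ℤ

namespace Hs

instance : Mul Hs := ⟨fun x y => ⟨x.a + y.a, x.b + y.b, x.z + y.z + x.a * y.b⟩⟩
instance : One Hs := ⟨⟨0, 0, 0⟩⟩
instance : Inv Hs := ⟨fun x => ⟨-x.a, -x.b, -x.z + x.a * x.b⟩⟩

@[simp] theorem mul_a (x y : Hs) : (x * y).a = x.a + y.a := rfl
@[simp] theorem mul_b (x y : Hs) : (x * y).b = x.b + y.b := rfl
@[simp] theorem mul_z (x y : Hs) : (x * y).z = x.z + y.z + x.a * y.b := rfl
@[simp] theorem one_a : (1 : Hs).a = 0 := rfl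
@[simp] theorem one_b : (1 : Hs).b = 0 := rfl
@[simp] theorem one_z : (1 : Hs).z = 0 := rfl
@[simp] theorem inv_a (x : Hs) : (x⁻¹).a = -x.a := rfl
@[simp] theorem inv_b (x : Hs) : (x⁻¹).b = -x.b := rfl
@[simp] theorem inv_z (x : Hs) : (x⁻¹).z = -x.z + x.a * x.b := rfl

instance : Group Hs :=
  Group.ofLeftAxioms
    (fun x y z => by ext <;> simp <;> ring)
    (fun x => by ext <;> simp)
    (fun x => by ext <;> simp)

/-- the first coordinate -/
def pa : Hs →* Multiplicative ℤ where
  toFun x := Multiplicative.ofAdd x.a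
  map_one' := rfl
  map_mul' _ _ := rfl

/-- the second coordinate -/
def pb : Hs →* Multiplicative ℤ where
  toFun x := Multiplicative.ofAdd x.b
  map_one' := rfl
  map_mul' _ _ := rfl

/-- the centre -/
def ce : Multiplicative ℤ →* Hs where
  toFun x := ⟨0, 0, Multiplicative.toAdd x⟩
  map_one' := rfl
  map_mul' x y := by ext <;> simp

theorem root {g : Hs} {n : ℤ} (h : g ^ n = ⟨0, 0, 1⟩) : n = 1 ∨ n = -1 := by
  have h0 : n ≠ 0 := by
    rintro rfl
    have := congrArg Hs.z h
    simp at this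
  have h1 : n * g.a = 0 := by
    have := congrArg (fun x => Multiplicative.toAdd (pa x)) h
    simp only [map_zpow, toAdd_zpow, smul_eq_mul] at this
    exact this
  have h2 : n * g.b = 0 := by
    have := congrArg (fun x => Multiplicative.toAdd (pb x)) h
    simp only [map_zpow, toAdd_zpow, smul_eq_mul] at this
    exact this
  have h3 : g.a = 0 := (mul_eq_zero.1 h1).resolve_left h0
  have h4 : g.b = 0 := (mul_eq_zero.1 h2).resolve_left h0
  have h5 : g = ce (Multiplicative.ofAdd g.z) := by
    ext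
    · exact h3
    · exact h4
    · rfl
  rw [h5, ← map_zpow] at h
  have h6 := congrArg Hs.z h
  have h7 : n * g.z = 1 := by
    have h8 : Multiplicative.toAdd ((Multiplicative.ofAdd g.z) ^ n) = 1 := h6
    rwa [toAdd_zpow, toAdd_ofAdd, smul_eq_mul] at h8
  exact Int.isUnit_iff.1 (IsUnit.of_mul_eq_one _ h7)

end Hs

end Pool.Agent.U670.SG
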