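import Pool.Agent.U670.SG.Surf

/-!
# Automorphisms of surface groups fixing the polynomial class functions are inner
-/

set_option autoImplicit false

namespace Pool.Agent.U670.SG

open Pool.Agent.U670.CV

section

variable {g k : ℕ}

/-- a homomorphism to the Heisenberg group -/
def Hz (g k : ℕ) : FreeGroup (Fin g) →* Hs :=
  FreeGroup.lift fun i => if (i : ℕ) = 0 then ⟨1, 0, 0⟩ else if (i : ℕ) = k then ⟨0, 1, 0⟩ else 1

theorem Hz_gx (hk : 1 ≤ k) (hg : 2 * k ≤ g) (i : ℕ) : Hz g k (gx g i) =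
    if i = 0 then ⟨1, 0, 0⟩ else if i = k then ⟨0, 1, 0⟩ else 1 := by
  by_cases h : i < g
  · rw [gx_of h, Hz, FreeGroup.lift_apply_of]
  · rw [gx, dif_neg h, map_one, if_neg (by omega), if_neg (by omega)]

theorem Hz_bd (hk : 1 ≤ k) (hg : 2 * k ≤ g) : Hz g k (bd g k) = ⟨0, 0, 1⟩ := by
  obtain ⟨k', rfl⟩ : ∃ k', k = k' + 1 := ⟨k - 1, by omega⟩
  unfold bd
  rw [map_mul, map_pr, pr_succ']
  have h1 : pr (fun i => Hz g (k' + 1) (cm (gx g) (fun i => gx g (k' + 1 + i)) (i + 1))) k' = 1 := by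
    rw [← pr_one k']
    apply pr_congr
    intro i hi
    rw [map_cm]
    simp only [cm, Hz_gx hk hg]
    rw [if_neg (by omega), if_neg (by omega), if_neg (by omega), if_neg (by omega)]
    simp
  have h2 : Hz g (k' + 1) (gx g (2 * (k' + 1))) = 1 := by
    rw [Hz_gx hk hg, if_neg (by omega), if_neg (by omega)]
  rw [h1, h2, map_cm]
  have h3 : Hz g (k' + 1) (gx g 0) = ⟨1, 0, 0⟩ := by rw [Hz_gx hk hg, if_pos rfl]
  have h4 : Hz g (k' + 1) (gx g (k' + 1 + 0)) = ⟨0, 1, 0⟩ := by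
    rw [Hz_gx hk hg, if_neg (by omega), if_pos (by omega)]
  simp only [cm, h3, h4]
  ext <;> simp

theorem bd_ne (hk : 1 ≤ k) (hg : 2 * k ≤ g) : bd g k ≠ 1 := by
  intro h
  have h1 := Hz_bd hk hg
  rw [h, map_one] at h1
  have := congrArg Hs.z h1
  simp at this

theorem bd_cz (hk : 1 ≤ k) (hg : 2 * k ≤ g) (u : FreeGroup (Fin g)) (hu : Commute u (bd g k)) :
    u ∈ Subgroup.zpowers (bd g k) := by
  apply cz (bd_ne hk hg) _ hu
  intro w n hw
  apply Hs.root (g := Hz g k w)
  rw [← map_zpow, ← hw, Hz_bd hk hg]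

theorem cross (hk : 1 ≤ k) (hg : g = 2 * k + 1) (u : FreeGroup (Fin g)) :
    ¬ Commute (bd g k) (u * gx g (2 * k) * u⁻¹) := by
  intro h
  have hle : 2 * k ≤ g := by omega
  obtain ⟨j, hj⟩ := bd_cz hk hle _ h.symm
  have hj' : bd g k ^ j = u * gx g (2 * k) * u⁻¹ := hj
  have h1 := congrArg (Hz g k) hj'
  have h2 : Hz g k (gx g (2 * k)) = 1 := by
    rw [Hz_gx hk hle, if_neg (by omega), if_neg (by omega)]
  rw [map_zpow, Hz_bd hk hle, map_mul, map_mul, map_inv, h2, mul_one, mul_inv_cancel] at h1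
  have h3 : (⟨0, 0, 1⟩ : Hs) = Hs.ce (Multiplicative.ofAdd 1) := rfl
  rw [h3, ← map_zpow] at h1
  have h4 := congrArg Hs.z h1
  have h5 : Multiplicative.toAdd ((Multiplicative.ofAdd (1 : ℤ)) ^ j) = 0 := h4
  rw [toAdd_zpow, toAdd_ofAdd, smul_eq_mul, mul_one] at h5
  rw [h5, zpow_zero] at hj'
  have h6 : gx g (2 * k) = 1 := conj_eq_one_iff.1 hj'.symm
  rw [gx_of (by omega)] at h6
  exact FreeGroup.of_ne_one _ h6

theorem comm_swap {H : Type} [Group H] {a b u : H} (h : Commute a (u * b * u⁻¹)) :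
    Commute b (u⁻¹ * a * u⁻¹⁻¹) := by
  have h1 : a * (u * b * u⁻¹) = u * b * u⁻¹ * a := h
  have h2 : b * (u⁻¹ * a * u⁻¹⁻¹) = u⁻¹ * a * u⁻¹⁻¹ * b := by
    calc b * (u⁻¹ * a * u⁻¹⁻¹) = u⁻¹ * (u * b * u⁻¹ * a) * u := by group
      _ = u⁻¹ * (a * (u * b * u⁻¹)) * u := by rw [h1]
      _ = u⁻¹ * a * u⁻¹⁻¹ * b := by group
  exact h2

theorem gen_all (hg : g = 2 * k ∨ g = 2 * k + 1) (S : Subgroup (SGr g))
    (h0 : ∀ u, J0 g k u ∈ S) (h1 : ∀ u, J1 g k u ∈ S) (hm : g = 2 * k + 1 → gb g k ∈ S) :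
    S = ⊤ := by
  have hle : 2 * k ≤ g := by omega
  apply gen_top
  · intro i hi
    by_cases h2 : i < k
    · rw [← J0_x h2 hle]
      exact h0 _
    by_cases h3 : i < g - k
    · have h4 : i = k := by omega
      have h5 : J0 g k (gx g (2 * k)) = ga g k := by
        rw [gx_of (by omega), J0_of, if_neg (by simp; omega), if_neg (by simp)]
      rw [h4, ← h5]
      exact h0 _
    · have h4 : g - 1 - i < k := by omega
      have h5 := J1_x' h4 hle
      have h6 : g - 1 - (g - 1 - i) = i := by omega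
      rw [h6] at h5
      rw [← h5]
      exact h1 _
  · intro i hi
    by_cases h2 : i < k
    · rw [← J0_x' h2 hle]
      exact h0 _
    by_cases h3 : i < g - k
    · have h4 : i = k := by omega
      rw [h4]
      exact hm (by omega)
    · have h4 : g - 1 - i < k := by omega
      have h5 := J1_x h4 hle
      have h6 : g - 1 - (g - 1 - i) = i := by omega
      rw [h6] at h5
      rw [← h5]
      exact h1 _

/-- even genus -/
def Dev (hk : 1 ≤ k) (hg : g = 2 * k) : Dbl (Fin g) Unit (SGr g) where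
  z _ := bd g k
  e0 := ()
  j0 := J0 g k
  j1 := J1 g k
  t _ := 1
  t0 := rfl
  rel _ := by rw [bd_eq (Or.inl hg), mul_one, one_mul]
  f n := Fn (Or.inl hg) n
  f0 n u := Fn_J0 _ n u
  f1 n u := Fn_J1 hk _ n u
  ft n _ := by rw [map_one, mul_inv_cancel]
  gen := by
    apply gen_all (Or.inl hg)
    · intro u
      exact Subgroup.subset_closure (Or.inl (Or.inl ⟨u, rfl⟩))
    · intro u
      exact Subgroup.subset_closure (Or.inl (Or.inr ⟨u, rfl⟩))
    · intro h
      omega
  zne _ := bd_ne hk (by omega)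
  nc _ _ _ h := ⟨rfl, nc_same (bd_ne hk (by omega)) (bd_cz hk (by omega)) h⟩

/-- odd genus -/
def Dod (hk : 1 ≤ k) (hg : g = 2 * k + 1) : Dbl (Fin g) Bool (SGr g) where
  z b := cond b (gx g (2 * k)) (bd g k)
  e0 := false
  j0 := J0 g k
  j1 := J1 g k
  t b := cond b (gb g k)⁻¹ 1
  t0 := rfl
  rel b := by
    cases b with
    | false =>
      change J0 g k (bd g k) * 1 = 1 * J1 g k (bd g k)
      rw [bd_eq (Or.inr hg), mul_one, one_mul]
    | true =>
      change J0 g k (gx g (2 * k)) * (gb g k)⁻¹ = (gb g k)⁻¹ * J1 g k (gx g (2 * k))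
      have h2 : J0 g k (gx g (2 * k)) = ga g k := by
        rw [gx_of (by omega), J0_of, if_neg (by simp; omega), if_neg (by simp)]
      have h3 : J1 g k (gx g (2 * k)) = gb g k * ga g k * (gb g k)⁻¹ := by
        rw [gx_of (by omega), J1_of, if_neg (by simp; omega), if_neg (by simp)]
      rw [h2, h3]
      group
  f n := Fn (Or.inr hg) n
  f0 n u := Fn_J0 _ n u
  f1 n u := Fn_J1 hk _ n u
  ft n b := by
    cases b with
    | false =>
      change Fn (Or.inr hg) n 1 = bd g k ^ (n : ℤ) * (bd g k ^ (n : ℤ))⁻¹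
      rw [map_one, mul_inv_cancel]
    | true =>
      change Fn (Or.inr hg) n (gb g k)⁻¹ = gx g (2 * k) ^ (n : ℤ) * (bd g k ^ (n : ℤ))⁻¹
      have h3 : ¬ (k < k) := lt_irrefl k
      have h4 : k < g - k := by omega
      rw [map_inv, Fn_b _ n (by omega)]
      simp only [FB, if_neg h3, if_pos h4]
      rw [mul_inv_rev, inv_inv]
  gen := by
    apply gen_all (Or.inr hg)
    · intro u
      exact Subgroup.subset_closure (Or.inl (Or.inl ⟨u, rfl⟩))
    · intro u
      exact Subgroup.subset_closure (Or.inl (Or.inr ⟨u, rfl⟩))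
    · intro _
      have h1 : (gb g k)⁻¹ ∈ Subgroup.closure (Set.range (J0 g k) ∪ Set.range (J1 g k) ∪
          Set.range fun b => cond b (gb g k)⁻¹ 1) :=
        Subgroup.subset_closure (Or.inr ⟨true, rfl⟩)
      exact inv_mem_iff.1 h1
  zne b := by
    cases b with
    | false => exact bd_ne hk (by omega)
    | true =>
      change gx g (2 * k) ≠ 1
      rw [gx_of (by omega)]
      exact FreeGroup.of_ne_one _
  nc e e' u h := by
    have hr : gx g (2 * k) ≠ 1 := by
      rw [gx_of (by omega)]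
      exact FreeGroup.of_ne_one _
    cases e <;> cases e'
    · exact ⟨rfl, nc_same (bd_ne hk (by omega)) (bd_cz hk (by omega)) h⟩
    · exact absurd h (cross hk hg u)
    · exact absurd (comm_swap h) (cross hk hg u⁻¹)
    · refine ⟨rfl, nc_same hr ?_ h⟩
      intro w hw
      rw [gx_of (by omega)] at hw ⊢
      obtain ⟨m, rfl⟩ := cz_gen _ hw
      exact ⟨m, rfl⟩

/-- exponent homomorphisms -/
def xa (g : ℕ) : SGr g →* Multiplicative ℤ :=
  toH (fun i => if i = 0 then Multiplicative.ofAdd 1 else 1) (fun _ => 1) (by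
    refine (pr_congr fun i _ => ?_).trans (pr_one g)
    simp [cm])

/-- exponent homomorphisms -/
def xb (g : ℕ) : SGr g →* Multiplicative ℤ :=
  toH (fun _ => 1) (fun i => if i = 0 then Multiplicative.ofAdd 1 else 1) (by
    refine (pr_congr fun i _ => ?_).trans (pr_one g)
    simp [cm])

theorem xa_ne (hk : 1 ≤ k) (hg : g = 2 * k ∨ g = 2 * k + 1) (h0 : 0 < g) :
    xa g (J0 g k (FreeGroup.of ⟨0, h0⟩)) ≠ xa g (J1 g k (FreeGroup.of ⟨0, h0⟩)) := by
  have h1 := J0_x (i := 0) (k := k) (g := g) (by omega) (by omega)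
  have h2 := J1_x (i := 0) (k := k) (g := g) (by omega) (by omega)
  rw [gx_of h0] at h1 h2
  rw [h1, h2, xa, toH_a _ _ _ h0, toH_b _ _ _ (by omega), if_pos rfl]
  intro h
  have := congrArg Multiplicative.toAdd h
  simp at this

theorem xb_ne (hk : 1 ≤ k) (hg : g = 2 * k ∨ g = 2 * k + 1) (h0 : k < g) :
    xb g (J0 g k (FreeGroup.of ⟨k, h0⟩)) ≠ xb g (J1 g k (FreeGroup.of ⟨k, h0⟩)) := by
  have h1 := J0_x' (i := 0) (k := k) (g := g) (by omega) (by omega)
  have h2 := J1_x' (i := 0) (k := k) (g := g) (by omega) (by omega)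
  rw [add_zero, gx_of h0] at h1 h2
  rw [h1, h2, xb, toH_b _ _ _ (by omega), toH_a _ _ _ (by omega), if_pos rfl]
  intro h
  have := congrArg Multiplicative.toAdd h
  simp at this

theorem ex_gx {i : ℕ} (hi : i ≠ 0) (h0 : 0 < g) : ex (⟨0, h0⟩ : Fin g) (gx g i) = 1 := by
  by_cases h : i < g
  · rw [gx_of h]
    have h1 : (⟨i, h⟩ : Fin g) ≠ ⟨0, h0⟩ := by
      intro h2
      exact hi (congrArg Fin.val h2)
    simp [ex, h1]
  · rw [gx, dif_neg h, map_one]

theorem ex_bd (hk : 1 ≤ k) (h0 : 0 < g) : ex (⟨0, h0⟩ : Fin g) (bd g k) = 1 := by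
  unfold bd
  rw [map_mul, ex_gx (by omega), mul_one, map_pr, ← pr_one k]
  apply pr_congr
  intro i _
  rw [map_cm]
  simp only [cm]
  generalize ex (⟨0, h0⟩ : Fin g) (gx g i) = x
  generalize ex (⟨0, h0⟩ : Fin g) (gx g (k + i)) = y
  rw [mul_comm x y, mul_inv_cancel_right, mul_inv_cancel]

theorem ex_Fn (hk : 1 ≤ k) (hg : g = 2 * k ∨ g = 2 * k + 1) (h0 : 0 < g) (n : ℕ) (x : SGr g) :
    ex (⟨0, h0⟩ : Fin g) (Fn hg n x) = ex (⟨0, h0⟩ : Fin g) (Fn hg 0 x) := by
  have h : (ex (⟨0, h0⟩ : Fin g)).comp (Fn hg n) = (ex (⟨0, h0⟩ : Fin g)).comp (Fn hg 0) := by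
    apply hom_ext
    · intro i hi
      rw [MonoidHom.comp_apply, MonoidHom.comp_apply, Fn_a hg n hi, Fn_a hg 0 hi]
      unfold FA
      split_ifs
      · rfl
      · rfl
      · rw [ex_conj, ex_conj]
    · intro i hi
      rw [MonoidHom.comp_apply, MonoidHom.comp_apply, Fn_b hg n hi, Fn_b hg 0 hi]
      unfold FB
      split_ifs
      · rfl
      · simp only [map_mul, map_inv, map_zpow, ex_bd hk h0, ex_gx (g := g) (i := 2 * k) (by omega) h0,
          one_zpow]
      · rw [ex_conj, ex_conj]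
  exact DFunLike.congr_fun h x

/-- **Automorphisms of surface groups fixing the polynomial class functions are inner.** -/
theorem surf_inner (hg : 2 ≤ g) (φ : MulAut (SGr g)) (hφ : TvG φ) : ∃ x, φ = MulAut.conj x := by
  obtain ⟨k, hk⟩ : ∃ k, g = 2 * k ∨ g = 2 * k + 1 := ⟨g / 2, by omega⟩
  have hk1 : 1 ≤ k := by omega
  have h0 : 0 < g := by omega
  have hkg : k < g := by omega
  have hne : (⟨0, h0⟩ : Fin g) ≠ ⟨k, hkg⟩ := by
    intro h
    have := congrArg Fin.val h
    simp only at this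
    omega
  rcases hk with hk | hk
  · exact inner_of (Dev hk1 hk) hne (xa g) (xb g) (xa_ne hk1 (Or.inl hk) h0)
      (xb_ne hk1 (Or.inl hk) hkg) (ex_Fn hk1 (Or.inl hk) h0) hφ
  · exact inner_of (Dod hk1 hk) hne (xa g) (xb g) (xa_ne hk1 (Or.inr hk) h0)
      (xb_ne hk1 (Or.inr hk) hkg) (ex_Fn hk1 (Or.inr hk) h0) hφ

/-- the abelianization of the surface group is torsion free -/
theorem surf_ab (g : ℕ) (x : SGr g) (hx : ∀ f : SGr g →* Multiplicative ℤ, f x = 1) :
    x ∈ commutator (SGr g) := by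
  obtain ⟨w, rfl⟩ := PresentedGroup.mk_surjective _ x
  have h1 : w ∈ commutator (FreeGroup (Fin g ⊕ Fin g)) := by
    apply free_ab
    intro f
    have h2 : f (rel g) = 1 := by
      rw [rel, map_list_prod, List.map_ofFn]
      apply List.prod_eq_one
      intro y hy
      rw [List.mem_ofFn] at hy
      obtain ⟨i, rfl⟩ := hy
      simp only [Function.comp_apply, map_mul, map_inv]
      generalize f (FreeGroup.of (Sum.inl i)) = a
      generalize f (FreeGroup.of (Sum.inr i)) = b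
      rw [mul_comm a b, mul_inv_cancel_right, mul_inv_cancel]
    let f' : SGr g →* Multiplicative ℤ :=
      PresentedGroup.toGroup (f := fun i => f (FreeGroup.of i)) (by
        intro r hr
        rw [Set.mem_singleton_iff] at hr
        rw [hr]
        have h3 : FreeGroup.lift (fun i => f (FreeGroup.of i)) = f := by
          apply FreeGroup.ext_hom
          intro i
          rw [FreeGroup.lift_apply_of]
        rw [h3, h2])
    have h4 : f'.comp (PresentedGroup.mk _) = f := by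
      apply FreeGroup.ext_hom
      intro i
      rw [MonoidHom.comp_apply]
      exact PresentedGroup.toGroup.of (rels := ({rel g} : Set (FreeGroup (Fin g ⊕ Fin g)))) _
    have h5 := hx f'
    rw [← h4]
    exact h5
  have h2 : (commutator (FreeGroup (Fin g ⊕ Fin g))).map
      (PresentedGroup.mk ({rel g} : Set (FreeGroup (Fin g ⊕ Fin g)))) ≤ commutator (SGr g) := by
    rw [commutator_def, commutator_def, Subgroup.map_commutator]
    exact Subgroup.commutator_mono le_top le_top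
  exact h2 ⟨w, h1, rfl⟩

instance (g : ℕ) : Group.FG (SGr g) :=
  Group.fg_of_surjective (PresentedGroup.mk_surjective ({rel g} : Set (FreeGroup (Fin g ⊕ Fin g))))

end

end Pool.Agent.U670.SG
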