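import Pool.Agent.U670.SG.Pr
import Pool.Agent.U670.SG.Inner

/-!
# Surface groups as doubles
-/

set_option autoImplicit false

namespace Pool.Agent.U670.SG

open Pool.Agent.U670.CV

/-- the relator of the surface group -/
def rel (g : ℕ) : FreeGroup (Fin g ⊕ Fin g) :=
  (List.ofFn (fun i : Fin g =>
    FreeGroup.of (Sum.inl i : Fin g ⊕ Fin g) * FreeGroup.of (Sum.inr i : Fin g ⊕ Fin g) *
    (FreeGroup.of (Sum.inl i : Fin g ⊕ Fin g))⁻¹ *
    (FreeGroup.of (Sum.inr i : Fin g ⊕ Fin g))⁻¹)).prod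

/-- the fundamental group of the closed orientable surface of genus `g` -/
abbrev SGr (g : ℕ) : Type := PresentedGroup ({rel g} : Set (FreeGroup (Fin g ⊕ Fin g)))

/-- the commutators -/
def cm {H : Type} [Group H] (A B : ℕ → H) (i : ℕ) : H := A i * B i * (A i)⁻¹ * (B i)⁻¹

theorem map_cm {H H' : Type} [Group H] [Group H'] (f : H →* H') (A B : ℕ → H) (i : ℕ) :
    f (cm A B i) = cm (fun i => f (A i)) (fun i => f (B i)) i := by
  simp [cm]

theorem lift_rel {g : ℕ} {H : Type} [Group H] (A B : ℕ → H) :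
    FreeGroup.lift (Sum.elim (fun i : Fin g => A i) (fun i : Fin g => B i)) (rel g) =
      pr (cm A B) g := by
  rw [← ofFn_pr, rel, map_list_prod, List.map_ofFn]
  congr 1
  congr 1
  funext i
  simp [cm]

/-- homomorphisms from the surface group -/
def toH {g : ℕ} {H : Type} [Group H] (A B : ℕ → H) (h : pr (cm A B) g = 1) : SGr g →* H :=
  PresentedGroup.toGroup (f := Sum.elim (fun i : Fin g => A i) (fun i : Fin g => B i)) (by
    intro r hr
    rw [Set.mem_singleton_iff] at hr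
    rw [hr, lift_rel, h])

/-- the generators -/
def ga (g : ℕ) (i : ℕ) : SGr g := if h : i < g then PresentedGroup.of (Sum.inl ⟨i, h⟩) else 1

/-- the generators -/
def gb (g : ℕ) (i : ℕ) : SGr g := if h : i < g then PresentedGroup.of (Sum.inr ⟨i, h⟩) else 1

theorem toH_a {g : ℕ} {H : Type} [Group H] (A B : ℕ → H) (h : pr (cm A B) g = 1) {i : ℕ}
    (hi : i < g) : toH A B h (ga g i) = A i := by
  rw [ga, dif_pos hi, toH, PresentedGroup.toGroup.of]
  rfl

theorem toH_b {g : ℕ} {H : Type} [Group H] (A B : ℕ → H) (h : pr (cm A B) g = 1) {i : ℕ}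
    (hi : i < g) : toH A B h (gb g i) = B i := by
  rw [gb, dif_pos hi, toH, PresentedGroup.toGroup.of]
  rfl

theorem srel (g : ℕ) : pr (cm (ga g) (gb g)) g = 1 := by
  have h1 : PresentedGroup.mk ({rel g} : Set (FreeGroup (Fin g ⊕ Fin g))) (rel g) = 1 :=
    PresentedGroup.one_of_mem (Set.mem_singleton _)
  rw [← lift_rel, ← h1]
  congr 1
  apply FreeGroup.ext_hom
  rintro (i | i)
  · rw [FreeGroup.lift_apply_of]
    simp only [Sum.elim_inl, ga, i.2, dif_pos]
    rfl
  · rw [FreeGroup.lift_apply_of]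
    simp only [Sum.elim_inr, gb, i.2, dif_pos]
    rfl

theorem hom_ext {g : ℕ} {H : Type} [Group H] {φ ψ : SGr g →* H}
    (ha : ∀ i < g, φ (ga g i) = ψ (ga g i)) (hb : ∀ i < g, φ (gb g i) = ψ (gb g i)) : φ = ψ := by
  apply PresentedGroup.ext
  rintro (i | i)
  · have := ha i i.2
    simpa only [ga, i.2, dif_pos] using this
  · have := hb i i.2
    simpa only [gb, i.2, dif_pos] using this

theorem gen_top (g : ℕ) (S : Subgroup (SGr g)) (ha : ∀ i < g, ga g i ∈ S)
    (hb : ∀ i < g, gb g i ∈ S) : S = ⊤ := by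
  rw [eq_top_iff, ← PresentedGroup.closure_range_of, Subgroup.closure_le]
  rintro _ ⟨(i | i), rfl⟩
  · have := ha i i.2
    rw [ga, dif_pos i.2] at this
    exact this
  · have := hb i i.2
    rw [gb, dif_pos i.2] at this
    exact this

/-- the generators of the free group -/
def gx (g : ℕ) (i : ℕ) : FreeGroup (Fin g) := if h : i < g then FreeGroup.of ⟨i, h⟩ else 1

theorem gx_of {g i : ℕ} (h : i < g) : gx g i = FreeGroup.of ⟨i, h⟩ := by
  rw [gx, dif_pos h]

/-- the boundary element -/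
def bd (g k : ℕ) : FreeGroup (Fin g) := pr (cm (gx g) (fun i => gx g (k + i))) k * gx g (2 * k)

section

variable {g k : ℕ}

/-- the first vertex group -/
def J0 (g k : ℕ) : FreeGroup (Fin g) →* SGr g :=
  FreeGroup.lift fun i => if (i : ℕ) < k then ga g i else if (i : ℕ) < 2 * k then gb g (i - k)
    else ga g k

/-- the second vertex group -/
def J1 (g k : ℕ) : FreeGroup (Fin g) →* SGr g :=
  FreeGroup.lift fun i => if (i : ℕ) < k then gb g (g - 1 - i) else
    if (i : ℕ) < 2 * k then ga g (g - 1 - (i - k)) else gb g k * ga g k * (gb g k)⁻¹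

theorem J0_of (i : Fin g) : J0 g k (FreeGroup.of i) = if (i : ℕ) < k then ga g i else
    if (i : ℕ) < 2 * k then gb g (i - k) else ga g k := FreeGroup.lift_apply_of

theorem J1_of (i : Fin g) : J1 g k (FreeGroup.of i) = if (i : ℕ) < k then gb g (g - 1 - i) else
    if (i : ℕ) < 2 * k then ga g (g - 1 - (i - k)) else gb g k * ga g k * (gb g k)⁻¹ :=
  FreeGroup.lift_apply_of

/-- the images of the generators under the retractions -/
def FA (g k n : ℕ) (i : ℕ) : FreeGroup (Fin g) :=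
  if i < k then gx g i else if i < g - k then gx g (2 * k) else
    bd g k ^ (n : ℤ) * gx g (k + (g - 1 - i)) * (bd g k ^ (n : ℤ))⁻¹

/-- the images of the generators under the retractions -/
def FB (g k n : ℕ) (i : ℕ) : FreeGroup (Fin g) :=
  if i < k then gx g (k + i) else if i < g - k then bd g k ^ (n : ℤ) * (gx g (2 * k) ^ (n : ℤ))⁻¹
    else bd g k ^ (n : ℤ) * gx g (g - 1 - i) * (bd g k ^ (n : ℤ))⁻¹

theorem cm_conj {H : Type} [Group H] (c : H) (A B : ℕ → H) (i : ℕ) :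
    cm (fun i => c * A i * c⁻¹) (fun i => c * B i * c⁻¹) i = c * cm A B i * c⁻¹ := by
  unfold cm
  group

theorem cm_inv {H : Type} [Group H] (A B : ℕ → H) (i : ℕ) : cm B A i = (cm A B i)⁻¹ := by
  unfold cm
  group

theorem cm_congr {H : Type} [Group H] {A B A' B' : ℕ → H} {i : ℕ} (h1 : A i = A' i)
    (h2 : B i = B' i) : cm A B i = cm A' B' i := by
  unfold cm
  rw [h1, h2]

theorem part1 (hg : 2 * k ≤ g) (n : ℕ) : pr (cm (FA g k n) (FB g k n)) k =
    pr (cm (gx g) (fun i => gx g (k + i))) k := by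
  apply pr_congr
  intro i hi
  apply cm_congr
  · simp only [FA, if_pos hi]
  · simp only [FB, if_pos hi]

theorem part3 (hg : 2 * k ≤ g) (n : ℕ) :
    pr (fun i => cm (FA g k n) (FB g k n) (g - k + i)) k =
    bd g k ^ (n : ℤ) * (pr (cm (gx g) (fun i => gx g (k + i))) k)⁻¹ * (bd g k ^ (n : ℤ))⁻¹ := by
  rw [← pr_rev, ← pr_conj]
  apply pr_congr
  intro i hi
  have h1 : ¬ (g - k + i < k) := by omega
  have h2 : ¬ (g - k + i < g - k) := by omega
  have h3 : g - 1 - (g - k + i) = k - 1 - i := by omega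
  simp only [cm, FA, FB, if_neg h1, if_neg h2, h3]
  group

theorem FA_rel (hg : g = 2 * k ∨ g = 2 * k + 1) (n : ℕ) :
    pr (cm (FA g k n) (FB g k n)) g = 1 := by
  have hle : 2 * k ≤ g := by omega
  have e1 : pr (cm (FA g k n) (FB g k n)) g = pr (cm (FA g k n) (FB g k n)) (g - k) *
      pr (fun i => cm (FA g k n) (FB g k n) (g - k + i)) k := by
    rw [← pr_add]
    congr 1
    omega
  rw [e1, part3 hle n]
  rcases hg with hg | hg
  · have h1 : g - k = k := by omega
    have h2 : gx g (2 * k) = 1 := by rw [gx, dif_neg (by omega)]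
    rw [h1, part1 hle n]
    unfold bd
    rw [h2, mul_one]
    generalize pr (cm (gx g) (fun i => gx g (k + i))) k = P
    group
  · have h1 : g - k = k + 1 := by omega
    rw [h1, pr_succ, part1 hle n]
    have h3 : ¬ (k < k) := lt_irrefl k
    have h4 : k < g - k := by omega
    simp only [cm, FA, FB, if_neg h3, if_pos h4]
    unfold bd
    generalize pr (cm (gx g) (fun i => gx g (k + i))) k = P
    generalize gx g (2 * k) = r
    have e2 : r * ((P * r) ^ (n : ℤ) * (r ^ (n : ℤ))⁻¹) * r⁻¹ * ((P * r) ^ (n : ℤ) * (r ^ (n : ℤ))⁻¹)⁻¹ =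
        r * (P * r) ^ (n : ℤ) * r⁻¹ * ((P * r) ^ (n : ℤ))⁻¹ := by
      have h5 : (r ^ (n : ℤ))⁻¹ * r⁻¹ * r ^ (n : ℤ) = r⁻¹ := by group
      calc r * ((P * r) ^ (n : ℤ) * (r ^ (n : ℤ))⁻¹) * r⁻¹ * ((P * r) ^ (n : ℤ) * (r ^ (n : ℤ))⁻¹)⁻¹
          = r * (P * r) ^ (n : ℤ) * ((r ^ (n : ℤ))⁻¹ * r⁻¹ * r ^ (n : ℤ)) * ((P * r) ^ (n : ℤ))⁻¹ := by
            simp only [mul_inv_rev, inv_inv, mul_assoc]
        _ = _ := by rw [h5]
    rw [e2]
    have h6 : P * (r * (P * r) ^ (n : ℤ) * r⁻¹ * ((P * r) ^ (n : ℤ))⁻¹) *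
        ((P * r) ^ (n : ℤ) * P⁻¹ * ((P * r) ^ (n : ℤ))⁻¹) =
        (P * r) * (P * r) ^ (n : ℤ) * (P * r)⁻¹ * ((P * r) ^ (n : ℤ))⁻¹ := by
      simp only [mul_inv_rev, mul_assoc, inv_mul_cancel_left]
    rw [h6]
    have h7 : (P * r) * (P * r) ^ (n : ℤ) * (P * r)⁻¹ = (P * r) ^ (n : ℤ) :=
      mul_inv_eq_iff_eq_mul.2 (Commute.self_zpow (P * r) (n : ℤ)).eq
    rw [h7, mul_inv_cancel]

/-- the retractions -/
def Fn (hg : g = 2 * k ∨ g = 2 * k + 1) (n : ℕ) : SGr g →* FreeGroup (Fin g) :=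
  toH (FA g k n) (FB g k n) (FA_rel hg n)

theorem Fn_a (hg : g = 2 * k ∨ g = 2 * k + 1) (n : ℕ) {i : ℕ} (hi : i < g) :
    Fn hg n (ga g i) = FA g k n i := toH_a _ _ _ hi

theorem Fn_b (hg : g = 2 * k ∨ g = 2 * k + 1) (n : ℕ) {i : ℕ} (hi : i < g) :
    Fn hg n (gb g i) = FB g k n i := toH_b _ _ _ hi

theorem Fn_J0 (hg : g = 2 * k ∨ g = 2 * k + 1) (n : ℕ) (u : FreeGroup (Fin g)) :
    Fn hg n (J0 g k u) = u := by
  have h : (Fn hg n).comp (J0 g k) = MonoidHom.id _ := by
    apply FreeGroup.ext_hom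
    intro i
    rw [MonoidHom.comp_apply, MonoidHom.id_apply, J0_of]
    have hi := i.2
    by_cases h1 : (i : ℕ) < k
    · rw [if_pos h1, Fn_a hg n hi]
      simp only [FA, if_pos h1]
      rw [gx_of hi]
    · rw [if_neg h1]
      by_cases h2 : (i : ℕ) < 2 * k
      · have h3 : (i : ℕ) - k < k := by omega
        have h4 : k + ((i : ℕ) - k) = i := by omega
        rw [if_pos h2, Fn_b hg n (by omega)]
        simp only [FB, if_pos h3, h4]
        rw [gx_of hi]
      · have h3 : ¬ (k < k) := lt_irrefl k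
        have h4 : k < g - k := by omega
        have h5 : 2 * k = i := by omega
        rw [if_neg h2, Fn_a hg n (by omega)]
        simp only [FA, if_neg h3, if_pos h4, h5]
        rw [gx_of hi]
  exact DFunLike.congr_fun h u

theorem Fn_J1 (hk : 1 ≤ k) (hg : g = 2 * k ∨ g = 2 * k + 1) (n : ℕ) (u : FreeGroup (Fin g)) :
    Fn hg n (J1 g k u) = bd g k ^ (n : ℤ) * u * (bd g k ^ (n : ℤ))⁻¹ := by
  have h : (Fn hg n).comp (J1 g k) = (MulAut.conj (bd g k ^ (n : ℤ))).toMonoidHom := by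
    apply FreeGroup.ext_hom
    intro i
    change Fn hg n (J1 g k (FreeGroup.of i)) = MulAut.conj (bd g k ^ (n : ℤ)) (FreeGroup.of i)
    rw [MulAut.conj_apply, J1_of]
    have hi := i.2
    by_cases h1 : (i : ℕ) < k
    · have h3 : ¬ (g - 1 - (i : ℕ) < k) := by omega
      have h4 : ¬ (g - 1 - (i : ℕ) < g - k) := by omega
      have h5 : g - 1 - (g - 1 - (i : ℕ)) = i := by omega
      rw [if_pos h1, Fn_b hg n (by omega)]
      simp only [FB, if_neg h3, if_neg h4, h5]
      rw [gx_of hi]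
    · rw [if_neg h1]
      by_cases h2 : (i : ℕ) < 2 * k
      · have h3 : ¬ (g - 1 - ((i : ℕ) - k) < k) := by omega
        have h4 : ¬ (g - 1 - ((i : ℕ) - k) < g - k) := by omega
        have h5 : k + (g - 1 - (g - 1 - ((i : ℕ) - k))) = i := by omega
        rw [if_pos h2, Fn_a hg n (by omega)]
        simp only [FA, if_neg h3, if_neg h4, h5]
        rw [gx_of hi]
      · have h3 : ¬ (k < k) := lt_irrefl k
        have h4 : k < g - k := by omega
        have h5 : 2 * k = i := by omega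
        rw [if_neg h2, map_mul, map_mul, map_inv, Fn_a hg n (by omega), Fn_b hg n (by omega)]
        simp only [FA, FB, if_neg h3, if_pos h4, h5]
        rw [gx_of hi]
        generalize bd g k ^ (n : ℤ) = c
        generalize FreeGroup.of (⟨(i : ℕ), hi⟩ : Fin g) = r
        have h6 : (r ^ (n : ℤ))⁻¹ * r * r ^ (n : ℤ) = r := by group
        calc c * (r ^ (n : ℤ))⁻¹ * r * (c * (r ^ (n : ℤ))⁻¹)⁻¹
            = c * ((r ^ (n : ℤ))⁻¹ * r * r ^ (n : ℤ)) * c⁻¹ := by
              simp only [mul_inv_rev, inv_inv, mul_assoc]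
          _ = c * r * c⁻¹ := by rw [h6]
  exact DFunLike.congr_fun h u

theorem J0_x {i : ℕ} (hi : i < k) (hg : 2 * k ≤ g) : J0 g k (gx g i) = ga g i := by
  rw [gx_of (by omega), J0_of, if_pos hi]

theorem J0_x' {i : ℕ} (hi : i < k) (hg : 2 * k ≤ g) : J0 g k (gx g (k + i)) = gb g i := by
  rw [gx_of (by omega), J0_of, if_neg (by simp), if_pos (by simp; omega)]
  simp

theorem J1_x {i : ℕ} (hi : i < k) (hg : 2 * k ≤ g) : J1 g k (gx g i) = gb g (g - 1 - i) := by
  rw [gx_of (by omega), J1_of, if_pos hi]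

theorem J1_x' {i : ℕ} (hi : i < k) (hg : 2 * k ≤ g) :
    J1 g k (gx g (k + i)) = ga g (g - 1 - i) := by
  rw [gx_of (by omega), J1_of, if_neg (by simp), if_pos (by simp; omega)]
  simp

theorem J0_pr (hg : 2 * k ≤ g) : J0 g k (pr (cm (gx g) (fun i => gx g (k + i))) k) =
    pr (cm (ga g) (gb g)) k := by
  rw [map_pr]
  apply pr_congr
  intro i hi
  rw [map_cm]
  exact cm_congr (J0_x hi hg) (J0_x' hi hg)

theorem J1_pr (hg : 2 * k ≤ g) : J1 g k (pr (cm (gx g) (fun i => gx g (k + i))) k) =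
    (pr (fun i => cm (ga g) (gb g) (g - k + i)) k)⁻¹ := by
  rw [map_pr, ← pr_rev]
  apply pr_congr
  intro i hi
  rw [map_cm]
  have h1 : g - k + (k - 1 - i) = g - 1 - i := by omega
  rw [h1, ← cm_inv]
  simp only [cm, J1_x hi hg, J1_x' hi hg]

theorem srel' (hg : 2 * k ≤ g) : pr (cm (ga g) (gb g)) (g - k) *
    pr (fun i => cm (ga g) (gb g) (g - k + i)) k = 1 := by
  rw [← pr_add, ← srel g]
  congr 1
  omega

theorem bd_eq (hg : g = 2 * k ∨ g = 2 * k + 1) : J0 g k (bd g k) = J1 g k (bd g k) := by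
  have hle : 2 * k ≤ g := by omega
  have h0 := srel' hle
  unfold bd
  rw [map_mul, map_mul, J0_pr hle, J1_pr hle]
  rcases hg with hg | hg
  · have h1 : g - k = k := by omega
    have h2 : gx g (2 * k) = 1 := by rw [gx, dif_neg (by omega)]
    rw [h2, map_one, map_one, mul_one, mul_one]
    rw [h1] at h0 ⊢
    exact eq_inv_of_mul_eq_one_left h0
  · have h1 : g - k = k + 1 := by omega
    have h2 : J0 g k (gx g (2 * k)) = ga g k := by
      rw [gx_of (by omega), J0_of, if_neg (by simp; omega), if_neg (by simp)]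
    have h3 : J1 g k (gx g (2 * k)) = gb g k * ga g k * (gb g k)⁻¹ := by
      rw [gx_of (by omega), J1_of, if_neg (by simp; omega), if_neg (by simp)]
    rw [h2, h3]
    rw [h1, pr_succ] at h0
    rw [h1]
    generalize pr (fun i => cm (ga g) (gb g) (k + 1 + i)) k = P3 at h0 ⊢
    generalize pr (cm (ga g) (gb g)) k = P1 at h0 ⊢
    unfold cm at h0
    have h4 : P1 * ga g k * (P3⁻¹ * (gb g k * ga g k * (gb g k)⁻¹))⁻¹ = 1 := by
      rw [← h0]
      group
    exact mul_inv_eq_one.1 h4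

end

end Pool.Agent.U670.SG
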